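import Pool.Agent.H90.MG.Common

/-!
# MP_90f90f_co (MG project), modules M1, M2, M6 (helper90)
-/

set_option autoImplicit false
set_option linter.unusedSectionVars false

noncomputable section

open Classical Module
open scoped Matrix

namespace Pool.Agent.H52.MG

open H90

/-- M1: an atom with exactly one crossing edge. -/
theorem m1 (hMT : T_MT) (hFB : T_FB) (hTL : T_TL) (hISO : T_ISO) : T_M1 := by
  intro V _ G c p q x y hp hT hpq hxy hc hone h4x h4y h10
  have hCnd : Cnd (delE G x y) c 0 := by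
    intro d hd
    have h1 := s2_delE hxy d
    have h2 := s2_nonneg_of_Tt hT d hd
    by_cases hdd : d x = d y
    · simp only [hdd, ne_eq, not_true_eq_false, if_false] at h1
      simp only [CharP.cast_eq_zero]
      linarith
    · simp only [hdd, ne_eq, not_false_eq_true, if_true] at h1
      have h3 := h10 d hd hdd
      simp only [CharP.cast_eq_zero]
      linarith
  have hMot := hMT V (delE G x y) c 0 p hp hCnd
  have hsub : PinMot G c p x ≤ Mot (delE G x y) c p := by
    intro S hS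
    rw [mem_PinMot] at hS
    rw [mem_Mot]
    refine ⟨hS.1, fun u w huw => ?_⟩
    by_cases hu : u = x
    · subst hu
      by_cases hcw : c w = c u
      · rw [hS.1 u w hcw.symm]
      · have := hone w huw.1 hcw
        subst this
        exact absurd ⟨rfl, rfl⟩ huw.2.1
    · exact hS.2 u w huw.1 hu
  have hfin := hFB V G c p x (Mot (delE G x y) c p) hp (fun S hS => ⟨S, hsub hS, fun _ _ => rfl⟩)
  refine ⟨x, y, hc, ?_⟩
  exact fin0 hTL hISO (HP G c) x hp hpq (by omega) (mem_Bd_self G c x) (mem_Bd_of_adj hxy)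
    h4x h4y (Cgr_Bd hpq x) (Cgr_Bd hpq y)

/-- M6: two coplanarities. -/
theorem m6 (hMT : T_MT) (hFB : T_FB) (hTL : T_TL) (hISO : T_ISO) (hGP : T_GP) : T_M6 := by
  intro V _ G c p q x₀ r₁ r₂ z hp hT hpq e1 e2 e3 hr hcr hcx hcz hxz honly h4x h4r h4z hd1 hd2 hd3
  have e1' : G.Adj r₁ x₀ := e1.symm
  have e3' : (delE G r₁ x₀).Adj r₁ z := by
    refine ⟨e3.symm, ?_, ?_⟩
    · rintro ⟨_, h⟩
      exact hxz h.symm
    · rintro ⟨h, _⟩
      exact hcx (by rw [h])
  have hCnd : Cnd (delE (delE G r₁ x₀) r₁ z) c 1 := by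
    intro d hd
    have h1 := s2_delE e1' d
    have h2 := s2_delE e3' d
    have h0 := s2_nonneg_of_Tt hT d hd
    push_cast
    by_cases ha : d r₁ ≠ d x₀ <;> by_cases hb : d r₁ ≠ d z
    · rw [if_pos ha] at h1
      rw [if_pos hb] at h2
      have := hd3 d hd ha hb
      linarith
    · rw [if_pos ha] at h1
      rw [if_neg hb] at h2
      have := hd1 d hd ha
      linarith
    · rw [if_neg ha] at h1
      rw [if_pos hb] at h2
      have := hd2 d hd hb
      linarith
    · rw [if_neg ha] at h1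
      rw [if_neg hb] at h2
      linarith
  have hMot := hMT V _ c 1 p hp hCnd
  have hsub : PinMot G c p r₁ ≤ Mot (delE (delE G r₁ x₀) r₁ z) c p := by
    intro S hS
    rw [mem_PinMot] at hS
    rw [mem_Mot]
    refine ⟨hS.1, fun u w huw => ?_⟩
    by_cases hu : u = r₁
    · subst hu
      by_cases hcw : c w = c u
      · rw [hS.1 u w hcw.symm]
      · rcases honly w huw.1.1 hcw with rfl | rfl
        · exact absurd ⟨rfl, rfl⟩ huw.1.2.1
        · exact absurd ⟨rfl, rfl⟩ huw.2.1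
    · exact hS.2 u w huw.1.1 hu
  have hfin := hFB V G c p r₁ _ hp (fun S hS => ⟨S, hsub hS, fun _ _ => rfl⟩)
  obtain ⟨W, hW⟩ := fin1 hTL hISO (HP G c) r₁ hp hpq (by omega)
  have hr1r1 : r₁ ∈ Bd G c r₁ := mem_Bd_self G c r₁
  have hr1x : r₁ ∈ Bd G c x₀ := mem_Bd_of_adj e1'
  have hr1z : r₁ ∈ Bd G c z := mem_Bd_of_adj e3.symm
  rcases hW (Bd G c r₁) (Bd G c x₀) hr1r1 hr1x h4r h4x (Cgr_Bd hpq r₁) (Cgr_Bd hpq x₀) with
    h | ⟨hW2, hA, -⟩
  · exact ⟨r₁, x₀, fun h' => hcx h'.symm, h⟩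
  rcases hW (Bd G c r₁) (Bd G c z) hr1r1 hr1z h4r h4z (Cgr_Bd hpq r₁) (Cgr_Bd hpq z) with
    h | ⟨-, hB, -⟩
  · exact ⟨r₁, z, fun h' => hcz h'.symm, h⟩
  exfalso
  have m1 := hA x₀ (mem_Bd_of_adj e1) (mem_Bd_self G c x₀)
  have m2 := hA r₂ (Or.inl hcr) (mem_Bd_of_adj e2.symm)
  have m3 := hB z (mem_Bd_of_adj e3) (mem_Bd_self G c z)
  have hne1 : r₁ ≠ x₀ := fun h => hcx (by rw [← h])
  have hne3 : r₁ ≠ z := fun h => hcz (by rw [← h])
  have hne4 : x₀ ≠ r₂ := fun h => hcx (by rw [h, hcr])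
  have hne5 : r₂ ≠ z := fun h => hcz (by rw [← h, hcr])
  exact (hGP V p hp).2.2 r₁ x₀ r₂ z hne1 hr hne3 hne4 hxz hne5 (det_of_mem hW2 m1 m2 m3)

/-- M2: all three edges leave the class at the same atom. -/
theorem m2 (hMT : T_MT) (hFB : T_FB) (hTL : T_TL) (hISO : T_ISO) (hGP : T_GP) : T_M2 := by
  intro V _ G c p q v y₁ y₂ y₃ hp hpq h12 h13 h23 hc1 hc2 hc3 e1 e2 e3 honly h41 h42 h43 hd
  have hdg : dgc G c v = 3 := by
    unfold dgc
    trans ({(v, y₁), (v, y₂), (v, y₃)} : Finset (V × V)).card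
    · congr 1
      ext ⟨a, b⟩
      simp only [Finset.mem_filter, Finset.mem_univ, true_and, Finset.mem_insert,
        Finset.mem_singleton, Prod.mk.injEq]
      constructor
      · rintro ⟨h1, h2, h3⟩
        obtain ⟨h4, h5⟩ := honly a b h1 h2 h3
        tauto
      · rintro (⟨rfl, rfl⟩ | ⟨rfl, rfl⟩ | ⟨rfl, rfl⟩)
        · exact ⟨rfl, hc1, e1⟩
        · exact ⟨rfl, hc2, e2⟩
        · exact ⟨rfl, hc3, e3⟩
    · rw [Finset.card_insert_of_notMem (by simp [h12, h13]),
        Finset.card_insert_of_notMem (by simp [h23]), Finset.card_singleton]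
  have hCnd : Cnd (delS G (cls c v)) (mrg c y₁ v) 1 := by
    apply cnd_split hc1 16 1 hd
    rw [hdg]
    norm_num
  have hMot := hMT V _ _ 1 p hp hCnd
  -- injection
  set Φ : (V → Scr) →ₗ[ℝ] (V → Scr) :=
    { toFun := fun S u => if c u = c v then S y₁ else S u
      map_add' := by
        intro S T
        funext u
        simp only [Pi.add_apply]
        split_ifs <;> rfl
      map_smul' := by
        intro r S
        funext u
        simp only [Pi.smul_apply, RingHom.id_apply]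
        split_ifs <;> rfl } with hΦ
  have hΦa : ∀ S u, Φ S u = if c u = c v then S y₁ else S u := fun _ _ => rfl
  have hmap : ∀ S ∈ PinMot G c p v, Φ S ∈ Mot (delS G (cls c v)) (mrg c y₁ v) p := by
    intro S hS
    rw [mem_PinMot] at hS
    rw [mem_Mot]
    refine ⟨fun u w huw => ?_, fun u w huw => ?_⟩
    · rw [hΦa, hΦa]
      unfold mrg at huw
      by_cases hu : c u = c v <;> by_cases hw : c w = c v
      · rw [if_pos hu, if_pos hw]
      · rw [if_pos hu, if_neg hw] at huw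
        rw [if_pos hu, if_neg hw]
        exact hS.1 _ _ huw
      · rw [if_neg hu, if_pos hw] at huw
        rw [if_neg hu, if_pos hw]
        exact hS.1 _ _ huw
      · rw [if_neg hu, if_neg hw] at huw
        rw [if_neg hu, if_neg hw]
        exact hS.1 _ _ huw
    · obtain ⟨h1, h2, h3⟩ := huw
      have h2' : ¬ c u = c v := h2
      have h3' : ¬ c w = c v := h3
      rw [hΦa, hΦa, if_neg h2', if_neg h3']
      apply hS.2 u w h1
      rintro rfl
      exact h2' rfl
  have hinj : ∀ S ∈ PinMot G c p v, Φ S = 0 → S = 0 := by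
    intro S hS h0
    rw [mem_PinMot] at hS
    have hout : ∀ u, c u ≠ c v → S u = 0 := by
      intro u hu
      have := congrFun h0 u
      rw [hΦa, if_neg hu] at this
      exact this
    have hval : ∀ y, c y ≠ c v → G.Adj v y → ev (S v) (p y) = 0 := by
      intro y hy he
      have h1 := hS.2 y v he.symm (fun h => hy (by rw [h]))
      rw [hout y hy, ev_zero] at h1
      exact h1.symm
    have hSv : S v = 0 := by
      apply scr_three (S v) (p y₁) (p y₂) (p y₃)
      · exact (hGP V p hp).2.1 y₁ y₂ y₃ h12 h13 h23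
      · exact hval y₁ hc1 e1
      · exact hval y₂ hc2 e2
      · exact hval y₃ hc3 e3
    funext u
    by_cases hu : c u = c v
    · rw [hS.1 u v hu, hSv]
      rfl
    · exact hout u hu
  have hfinPin : finrank ℝ (PinMot G c p v) ≤ 7 := by
    have h1 : finrank ℝ (PinMot G c p v) ≤
        finrank ℝ (Mot (delS G (cls c v)) (mrg c y₁ v) p) := by
      apply LinearMap.finrank_le_finrank_of_injective (f := Φ.restrict hmap)
      rw [injective_iff_map_eq_zero]
      rintro ⟨S, hS⟩ h0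
      have h1 : Φ S = 0 := congrArg Subtype.val h0
      exact Subtype.ext (hinj S hS h1)
    omega
  have hfin := hFB V G c p v (PinMot G c p v) hp (fun S hS => ⟨S, hS, fun _ _ => rfl⟩)
  obtain ⟨W, hW⟩ := fin1 hTL hISO (HP G c) v hp hpq (by omega)
  have hne1 : v ≠ y₁ := fun h => hc1 (by rw [h])
  have hne2 : v ≠ y₂ := fun h => hc2 (by rw [h])
  have hne3 : v ≠ y₃ := fun h => hc3 (by rw [h])
  have h4v : 4 ≤ (Bd G c v).ncard :=
    four_le_ncard (mem_Bd_self G c v) (mem_Bd_of_adj e1.symm) (mem_Bd_of_adj e2.symm)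
      (mem_Bd_of_adj e3.symm) hne1 hne2 hne3 h12 h13 h23
  have key : ∀ y, c y ≠ c v → G.Adj v y → 4 ≤ (Bd G c y).ncard →
      Mrg G c p q ∨ (finrank ℝ W = 2 ∧ p y - p v ∈ W) := by
    intro y hy he h4
    rcases hW (Bd G c v) (Bd G c y) (mem_Bd_self G c v) (mem_Bd_of_adj he) h4v h4
      (Cgr_Bd hpq v) (Cgr_Bd hpq y) with h | ⟨hW2, hA, -⟩
    · exact Or.inl ⟨v, y, fun h' => hy h'.symm, h⟩
    · exact Or.inr ⟨hW2, hA y (mem_Bd_of_adj he.symm) (mem_Bd_self G c y)⟩
  rcases key y₁ hc1 e1 h41 with h | ⟨hW2, m1⟩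
  · exact h
  rcases key y₂ hc2 e2 h42 with h | ⟨-, m2⟩
  · exact h
  rcases key y₃ hc3 e3 h43 with h | ⟨-, m3⟩
  · exact h
  exact absurd (det_of_mem hW2 m1 m2 m3)
    ((hGP V p hp).2.2 v y₁ y₂ y₃ hne1 hne2 hne3 h12 h13 h23)

end Pool.Agent.H52.MG
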