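import Pool.Agent.H90.MG.Common

/-!
# MP_90f90f_co (MG project), modules S3, S5, S6 (helper90)
-/

set_option autoImplicit false
set_option linter.unusedSectionVars false

noncomputable section

open Classical Module
open scoped Matrix

namespace Pool.Agent.H52.MG

namespace H90

section
variable {V : Type} [Fintype V]

/-- the leaving pairs of the class of `x` -/
def Lv (G : SimpleGraph V) (c : V → V) (x : V) : Finset (V × V) :=
  (Finset.univ : Finset (V × V)).filter (fun e => c e.1 = c x ∧ c e.2 ≠ c x ∧ G.Adj e.1 e.2)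

lemma mem_Lv {G : SimpleGraph V} {c : V → V} {x : V} {e : V × V} :
    e ∈ Lv G c x ↔ c e.1 = c x ∧ c e.2 ≠ c x ∧ G.Adj e.1 e.2 := by
  unfold Lv
  simp

lemma card_Lv (G : SimpleGraph V) (c : V → V) (x : V) : (Lv G c x).card = dgc G c x := rfl

lemma dgc_congr {G : SimpleGraph V} {c : V → V} {x y : V} (h : c x = c y) :
    dgc G c x = dgc G c y := by
  unfold dgc
  rw [h]

lemma use_m1 (hM1 : T_M1) (hDEG : T_DEG) {G : SimpleGraph V} {c : V → V} {p q : V → Vec}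
    (hp : Gen p) (hT : Tt G c) (hpq : Eqv (HP G c) p q) {x : V} {e : V × V}
    (hx3 : 3 ≤ dgc G c x) (he : e ∈ Lv G c x) (huniq : ∀ e' ∈ Lv G c x, e'.1 = e.1 → e' = e)
    (h3 : 3 ≤ dgc G c e.2) (h10 : ∀ d : V → V, Coarse c d → d e.1 ≠ d e.2 → 10 ≤ s2 G d) :
    Mrg G c p q := by
  obtain ⟨h1, h2, h4⟩ := mem_Lv.1 he
  have hne : c e.1 ≠ c e.2 := by
    rw [h1]
    exact fun h => h2 h.symm
  refine hM1 V G c p q e.1 e.2 hp hT hpq h4 hne ?_ ?_ ?_ h10
  · intro w hw hcw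
    have : (e.1, w) ∈ Lv G c x := mem_Lv.2 ⟨h1, by rwa [h1] at hcw, hw⟩
    have := huniq _ this rfl
    exact congrArg Prod.snd this
  · apply hDEG
    rw [dgc_congr h1]
    exact hx3
  · exact hDEG V G c e.2 h3

end

end H90

open H90

/-- S3: case (iii). -/
theorem s3 (hM1 : T_M1) (hM2 : T_M2) (hDEG : T_DEG) : T_S3 := by
  intro V _ G c p q x hp hT hpq hx3 hnb h16 h10
  have hcard : (Lv G c x).card = 3 := by rw [card_Lv, hx3]
  obtain ⟨e1, e2, e3, h12, h13, h23, hL⟩ := Finset.card_eq_three.1 hcard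
  have hm : ∀ e, e ∈ Lv G c x ↔ e = e1 ∨ e = e2 ∨ e = e3 := by
    intro e
    rw [hL]
    simp
  have hm1 := (hm e1).2 (Or.inl rfl)
  have hm2 := (hm e2).2 (Or.inr (Or.inl rfl))
  have hm3 := (hm e3).2 (Or.inr (Or.inr rfl))
  obtain ⟨a1, b1, c1⟩ := mem_Lv.1 hm1
  obtain ⟨a2, b2, c2⟩ := mem_Lv.1 hm2
  obtain ⟨a3, b3, c3⟩ := mem_Lv.1 hm3
  have use : ∀ e ∈ Lv G c x, (∀ e' ∈ Lv G c x, e'.1 = e.1 → e' = e) → Mrg G c p q := by
    intro e he hu
    obtain ⟨a, b, cc⟩ := mem_Lv.1 he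
    exact use_m1 hM1 hDEG hp hT hpq (x := x) (by omega) he hu (hnb e.1 e.2 a b cc)
      (fun d hd hdd => h10 d hd e.1 e.2 a cc hdd)
  by_cases k12 : e1.1 = e2.1
  · by_cases k13 : e1.1 = e3.1
    · -- all the same first atom
      have hy12 : e1.2 ≠ e2.2 := fun h => h12 (Prod.ext k12 h)
      have hy13 : e1.2 ≠ e3.2 := fun h => h13 (Prod.ext k13 h)
      have hy23 : e2.2 ≠ e3.2 := fun h => h23 (Prod.ext (k12.symm.trans k13) h)
      refine hM2 V G c p q e1.1 e1.2 e2.2 e3.2 hp hpq hy12 hy13 hy23 ?_ ?_ ?_ c1 ?_ ?_ ?_ ?_ ?_ ?_ ?_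
      · rw [a1]; exact b1
      · rw [a1]; exact b2
      · rw [a1]; exact b3
      · rw [k12]; exact c2
      · rw [k13]; exact c3
      · intro u w hu hw huw
        have : (u, w) ∈ Lv G c x := mem_Lv.2 ⟨by rw [hu, a1], by rw [← a1]; exact hw, huw⟩
        rcases (hm _).1 this with h | h | h
        · exact ⟨congrArg Prod.fst h, Or.inl (congrArg Prod.snd h)⟩
        · exact ⟨(congrArg Prod.fst h).trans k12.symm, Or.inr (Or.inl (congrArg Prod.snd h))⟩
        · exact ⟨(congrArg Prod.fst h).trans k13.symm, Or.inr (Or.inr (congrArg Prod.snd h))⟩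
      · exact hDEG V G c e1.2 (hnb _ _ a1 b1 c1)
      · exact hDEG V G c e2.2 (hnb _ _ a2 b2 c2)
      · exact hDEG V G c e3.2 (hnb _ _ a3 b3 c3)
      · intro d hd h
        apply h16 d hd
        intro v hv
        rw [← a1]
        apply h
        rw [hv]
        exact hd _ _ a1.symm
    · -- e3 is unique
      apply use e3 hm3
      intro e' he' h
      rcases (hm _).1 he' with rfl | rfl | rfl
      · exact absurd h k13
      · exact absurd (k12.trans h) k13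
      · rfl
  · by_cases k13 : e1.1 = e3.1
    · apply use e2 hm2
      intro e' he' h
      rcases (hm _).1 he' with rfl | rfl | rfl
      · exact absurd h k12
      · rfl
      · exact absurd (k13.trans h) k12
    · apply use e1 hm1
      intro e' he' h
      rcases (hm _).1 he' with rfl | rfl | rfl
      · rfl
      · exact absurd h.symm k12
      · exact absurd h.symm k13

namespace H90

section
variable {V : Type} [Fintype V]

/-- two atoms of a class of degree three joined to the same atom of another class -/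
lemma caseB (hM1 : T_M1) (hDEG : T_DEG) {G : SimpleGraph V} {c : V → V} {p q : V → Vec}
    (hp : Gen p) (hT : Tt G c) (hpq : Eqv (HP G c) p q) {x₀ x₁ a₁ a₂ r : V}
    (hc : c x₀ ≠ c x₁) (h3 : dgc G c x₀ = 3) (h3' : 3 ≤ dgc G c x₁) (ha : a₁ ≠ a₂)
    (hc1 : c a₁ = c x₀) (hc2 : c a₂ = c x₀) (hcr : c r = c x₁) (e1 : G.Adj a₁ r)
    (e2 : G.Adj a₂ r) (h10 : ∀ d : V → V, Coarse c d → d x₀ ≠ d x₁ → 10 ≤ s2 G d) :
    Mrg G c p q := by
  have hcard : (Lv G c x₀).card = 3 := by rw [card_Lv, h3]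
  have hcr' : c r ≠ c x₀ := by
    rw [hcr]
    exact hc.symm
  have m1 : (a₁, r) ∈ Lv G c x₀ := mem_Lv.2 ⟨hc1, hcr', e1⟩
  have m2 : (a₂, r) ∈ Lv G c x₀ := mem_Lv.2 ⟨hc2, hcr', e2⟩
  have hne : (a₁, r) ≠ (a₂, r) := fun h => ha (congrArg Prod.fst h)
  have hcard1 : (((Lv G c x₀).erase (a₁, r)).erase (a₂, r)).card = 1 := by
    rw [Finset.card_erase_of_mem (Finset.mem_erase.2 ⟨hne.symm, m2⟩), Finset.card_erase_of_mem m1,
      hcard]
  obtain ⟨e3, he3⟩ := Finset.card_eq_one.1 hcard1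
  have hm : ∀ e ∈ Lv G c x₀, e = (a₁, r) ∨ e = (a₂, r) ∨ e = e3 := by
    intro e he
    by_cases h1 : e = (a₁, r)
    · exact Or.inl h1
    · by_cases h2 : e = (a₂, r)
      · exact Or.inr (Or.inl h2)
      · right; right
        have : e ∈ ((Lv G c x₀).erase (a₁, r)).erase (a₂, r) :=
          Finset.mem_erase.2 ⟨h2, Finset.mem_erase.2 ⟨h1, he⟩⟩
        rw [he3] at this
        exact Finset.mem_singleton.1 this
  have h10' : ∀ a, c a = c x₀ → ∀ d : V → V, Coarse c d → d a ≠ d r → 10 ≤ s2 G d := by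
    intro a haa d hd hdd
    apply h10 d hd
    rwa [hd a x₀ haa, hd r x₁ hcr] at hdd
  have h3r : 3 ≤ dgc G c r := by rw [dgc_congr hcr]; exact h3'
  by_cases k : e3.1 = a₁
  · refine use_m1 hM1 hDEG hp hT hpq (x := x₀) (e := (a₂, r)) (by omega) m2 ?_ h3r (h10' a₂ hc2)
    intro e' he' h
    rcases hm e' he' with rfl | rfl | rfl
    · exact absurd h ha
    · rfl
    · exact absurd (k.symm.trans h) ha
  · refine use_m1 hM1 hDEG hp hT hpq (x := x₀) (e := (a₁, r)) (by omega) m1 ?_ h3r (h10' a₁ hc1)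
    intro e' he' h
    rcases hm e' he' with rfl | rfl | rfl
    · rfl
    · exact absurd h.symm ha
    · exact absurd h k

/-- two disjoint edges between two classes -/
lemma caseA (hM4 : T_M4) {G : SimpleGraph V} {c : V → V} {p q : V → Vec}
    (hp : Gen p) (hpq : Eqv (HP G c) p q) {x₀ x₁ a₁ a₂ r₁ r₂ : V}
    (hc : c x₀ ≠ c x₁) (ha : a₁ ≠ a₂) (hr : r₁ ≠ r₂)
    (hc1 : c a₁ = c x₀) (hc2 : c a₂ = c x₀) (hcr1 : c r₁ = c x₁) (hcr2 : c r₂ = c x₁)
    (e1 : G.Adj a₁ r₁) (e2 : G.Adj a₂ r₂) : Mrg G c p q := by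
  have hne : ∀ a r, c a = c x₀ → c r = c x₁ → a ≠ r := by
    rintro a _ h1 h2 rfl
    exact hc (h1.symm.trans h2)
  refine ⟨x₀, x₁, hc, hM4 V p q (Bd G c x₀) (Bd G c x₁) a₁ a₂ r₁ r₂ hp (Cgr_Bd hpq x₀)
    (Cgr_Bd hpq x₁) ?_ ?_ ?_ ?_ ha (hne _ _ hc1 hcr1) (hne _ _ hc1 hcr2) (hne _ _ hc2 hcr1)
    (hne _ _ hc2 hcr2) hr⟩
  · exact ⟨Or.inl hc1, Or.inr ⟨r₁, e1, hcr1⟩⟩
  · exact ⟨Or.inl hc2, Or.inr ⟨r₂, e2, hcr2⟩⟩
  · exact ⟨Or.inr ⟨a₁, e1.symm, hc1⟩, Or.inl hcr1⟩
  · exact ⟨Or.inr ⟨a₂, e2.symm, hc2⟩, Or.inl hcr2⟩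

lemma mu_two {G : SimpleGraph V} {c : V → V} {x₀ x₁ : V} (h : mu G c x₀ x₁ = 2) :
    ∃ a₁ r₁ a₂ r₂, (a₁, r₁) ≠ (a₂, r₂) ∧ c a₁ = c x₀ ∧ c r₁ = c x₁ ∧ G.Adj a₁ r₁ ∧
      c a₂ = c x₀ ∧ c r₂ = c x₁ ∧ G.Adj a₂ r₂ ∧
      ∀ a r, c a = c x₀ → c r = c x₁ → G.Adj a r → (a = a₁ ∧ r = r₁) ∨ (a = a₂ ∧ r = r₂) := by
  unfold mu at h
  obtain ⟨⟨a₁, r₁⟩, ⟨a₂, r₂⟩, hne, hE⟩ := Finset.card_eq_two.1 h
  have hm : ∀ a r, (c a = c x₀ ∧ c r = c x₁ ∧ G.Adj a r) ↔
      ((a = a₁ ∧ r = r₁) ∨ (a = a₂ ∧ r = r₂)) := by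
    intro a r
    have h1 : (a, r) ∈ (Finset.univ : Finset (V × V)).filter
      (fun x => c x.1 = c x₀ ∧ c x.2 = c x₁ ∧ G.Adj x.1 x.2) ↔
        (a, r) ∈ ({(a₁, r₁), (a₂, r₂)} : Finset (V × V)) := by rw [hE]
    simpa using h1
  obtain ⟨h1, h2, h3⟩ := (hm a₁ r₁).2 (Or.inl ⟨rfl, rfl⟩)
  obtain ⟨h4, h5, h6⟩ := (hm a₂ r₂).2 (Or.inr ⟨rfl, rfl⟩)
  exact ⟨a₁, r₁, a₂, r₂, hne, h1, h2, h3, h4, h5, h6,
    fun a r h7 h8 h9 => (hm a r).1 ⟨h7, h8, h9⟩⟩

end

end H90

/-- S6: case (v'). -/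
theorem s6 (hM1 : T_M1) (hM4 : T_M4) (hDEG : T_DEG) : T_S6 := by
  intro V _ G c p q x₀ x₁ hp hT hpq hc h30 h31 hmu h10
  obtain ⟨a₁, r₁, a₂, r₂, hne, ca1, cr1, e1, ca2, cr2, e2, -⟩ := mu_two hmu
  by_cases ha : a₁ = a₂
  · by_cases hr : r₁ = r₂
    · exact absurd (Prod.ext ha hr) hne
    · subst ha
      exact caseB hM1 hDEG hp hT hpq (x₀ := x₁) (x₁ := x₀) hc.symm h31 (by omega) hr cr1 cr2 ca1
        e1.symm e2.symm (fun d hd hdd => h10 d hd hdd.symm)
  · by_cases hr : r₁ = r₂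
    · subst hr
      exact caseB hM1 hDEG hp hT hpq hc h30 (by omega) ha ca1 ca2 cr1 e1 e2 h10
    · exact caseA hM4 hp hpq hc ha hr ca1 ca2 cr1 cr2 e1 e2

/-- S5: case (v). -/
theorem s5 (hM1 : T_M1) (hM4 : T_M4) (hM6 : T_M6) (hDEG : T_DEG) : T_S5 := by
  intro V _ G c p q x₀ x₁ hp hT hpq hc h30 h41 hmu hnb h10 h18
  obtain ⟨a₁, r₁, a₂, r₂, hne, ca1, cr1, e1, ca2, cr2, e2, hall⟩ := mu_two hmu
  by_cases ha : a₁ = a₂
  · by_cases hr : r₁ = r₂
    · exact absurd (Prod.ext ha hr) hne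
    · subst ha
      set a := a₁ with ha_def
      have hcard : (Lv G c x₁).card = 4 := by rw [card_Lv, h41]
      have hca : c a ≠ c x₁ := by rw [ca1]; exact hc
      have m1 : (r₁, a) ∈ Lv G c x₁ := mem_Lv.2 ⟨cr1, hca, e1.symm⟩
      have m2 : (r₂, a) ∈ Lv G c x₁ := mem_Lv.2 ⟨cr2, hca, e2.symm⟩
      have hne' : (r₁, a) ≠ (r₂, a) := fun h => hr (congrArg Prod.fst h)
      have hcard1 : (((Lv G c x₁).erase (r₁, a)).erase (r₂, a)).card = 2 := by
        rw [Finset.card_erase_of_mem (Finset.mem_erase.2 ⟨hne'.symm, m2⟩),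
          Finset.card_erase_of_mem m1, hcard]
      obtain ⟨e3, e4, h34, he34⟩ := Finset.card_eq_two.1 hcard1
      have hm : ∀ e ∈ Lv G c x₁, e = (r₁, a) ∨ e = (r₂, a) ∨ e = e3 ∨ e = e4 := by
        intro e he
        by_cases h1 : e = (r₁, a)
        · exact Or.inl h1
        · by_cases h2 : e = (r₂, a)
          · exact Or.inr (Or.inl h2)
          · right; right
            have : e ∈ ((Lv G c x₁).erase (r₁, a)).erase (r₂, a) :=
              Finset.mem_erase.2 ⟨h2, Finset.mem_erase.2 ⟨h1, he⟩⟩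
            rw [he34] at this
            simpa using this
      have hm3 : ∀ e, e = e3 ∨ e = e4 → e ∈ Lv G c x₁ ∧ c e.2 ≠ c x₀ := by
        intro e he
        have : e ∈ ((Lv G c x₁).erase (r₁, a)).erase (r₂, a) := by
          rw [he34]
          simpa using he
        rw [Finset.mem_erase, Finset.mem_erase] at this
        refine ⟨this.2.2, fun h => ?_⟩
        obtain ⟨k1, k2, k3⟩ := mem_Lv.1 this.2.2
        rcases hall e.2 e.1 h k1 k3.symm with ⟨k4, k5⟩ | ⟨k4, k5⟩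
        · exact this.2.1 (Prod.ext k5 k4)
        · exact this.1 (Prod.ext k5 k4)
      have use : ∀ e ∈ Lv G c x₁, (∀ e' ∈ Lv G c x₁, e'.1 = e.1 → e' = e) → Mrg G c p q := by
        intro e he hu
        obtain ⟨k1, k2, k3⟩ := mem_Lv.1 he
        exact use_m1 hM1 hDEG hp hT hpq (x := x₁) (by omega) he hu (hnb e.1 e.2 k1 k2 k3)
          (fun d hd hdd => h10 d hd e.1 e.2 k1 k3 hdd)
      have h4a : 4 ≤ (Bd G c a).ncard := by
        apply hDEG
        rw [dgc_congr ca1]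
        omega
      -- the main application of M6
      have main : ∀ ra rb : V, ra ≠ rb → c ra = c x₁ → c rb = c x₁ → G.Adj ra a → G.Adj rb a →
          ∀ z, (ra, z) ∈ Lv G c x₁ → c z ≠ c x₀ →
          (∀ e ∈ Lv G c x₁, e.1 = ra → e = (ra, a) ∨ e = (ra, z)) → Mrg G c p q := by
        intro ra rb hrab cra crb ea eb z hz hcz honly
        obtain ⟨k1, k2, k3⟩ := mem_Lv.1 hz
        simp only at k1 k2 k3
        have h4r : 4 ≤ (Bd G c ra).ncard := by
          apply hDEG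
          rw [dgc_congr cra]
          omega
        refine hM6 V G c p q a ra rb z hp hT hpq ea.symm eb.symm k3.symm hrab (by rw [cra, crb])
          (by rw [cra]; exact hca) (by rw [cra]; exact k2) ?_ ?_ h4a h4r ?_ ?_ ?_ ?_
        · rintro rfl
          exact hcz ca1
        · intro w hw hcw
          have h5 : (ra, w) ∈ Lv G c x₁ := mem_Lv.2 ⟨cra, by rwa [cra] at hcw, hw⟩
          rcases honly _ h5 rfl with h6 | h6
          · exact Or.inl (congrArg Prod.snd h6)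
          · exact Or.inr (congrArg Prod.snd h6)
        · exact hDEG V G c z (hnb ra z cra k2 k3)
        · intro d hd hdd
          exact h10 d hd ra a cra ea hdd
        · intro d hd hdd
          exact h10 d hd ra z cra k3 hdd
        · intro d hd hd1 hd2
          apply h18 d hd ra z cra k3 hcz
          · rw [← hd ra x₁ cra, ← hd a x₀ ca1]
            exact hd1
          · rw [← hd ra x₁ cra]
            exact hd2
      have hm3' := hm3 e3 (Or.inl rfl)
      have hm4' := hm3 e4 (Or.inr rfl)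
      by_cases k1 : e3.1 ≠ r₁ ∧ e4.1 ≠ r₁
      · apply use (r₁, a) m1
        intro e' he' h
        rcases hm e' he' with rfl | rfl | rfl | rfl
        · rfl
        · exact absurd h.symm hr
        · exact absurd h k1.1
        · exact absurd h k1.2
      by_cases k2 : e3.1 ≠ r₂ ∧ e4.1 ≠ r₂
      · apply use (r₂, a) m2
        intro e' he' h
        rcases hm e' he' with rfl | rfl | rfl | rfl
        · exact absurd h hr
        · rfl
        · exact absurd h k2.1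
        · exact absurd h k2.2
      by_cases k3 : e3.1 = r₁
      · have k4 : e4.1 = r₂ := by
          by_contra hc4
          exact k2 ⟨fun h => hr (k3.symm.trans h), hc4⟩
        have h5 : e3 = (r₁, e3.2) := Prod.ext k3 rfl
        refine main r₁ r₂ hr cr1 cr2 e1.symm e2.symm e3.2 (by rw [← h5]; exact hm3'.1) hm3'.2 ?_
        intro e he h
        rcases hm e he with rfl | rfl | rfl | rfl
        · exact Or.inl rfl
        · exact absurd h.symm hr
        · exact Or.inr h5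
        · exact absurd (k4.symm.trans h).symm hr
      · have k4 : e4.1 = r₁ := by
          by_contra hc4
          exact k1 ⟨k3, hc4⟩
        have k5 : e3.1 = r₂ := by
          by_contra hc4
          exact k2 ⟨hc4, fun h => hr (k4.symm.trans h)⟩
        have h5 : e4 = (r₁, e4.2) := Prod.ext k4 rfl
        refine main r₁ r₂ hr cr1 cr2 e1.symm e2.symm e4.2 (by rw [← h5]; exact hm4'.1) hm4'.2 ?_
        intro e he h
        rcases hm e he with rfl | rfl | rfl | rfl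
        · exact Or.inl rfl
        · exact absurd h.symm hr
        · exact absurd (k5.symm.trans h).symm hr
        · exact Or.inr h5
  · have h10' : ∀ d : V → V, Coarse c d → d x₀ ≠ d x₁ → 10 ≤ s2 G d := by
      intro d hd hdd
      apply h10 d hd r₁ a₁ cr1 e1.symm
      rw [hd r₁ x₁ cr1, hd a₁ x₀ ca1]
      exact hdd.symm
    by_cases hr : r₁ = r₂
    · subst hr
      exact caseB hM1 hDEG hp hT hpq hc h30 (by omega) ha ca1 ca2 cr1 e1 e2 h10'
    · exact caseA hM4 hp hpq hc ha hr ca1 ca2 cr1 cr2 e1 e2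

end Pool.Agent.H52.MG
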