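import Pool.Agent.H90.MG.Common

/-!
# MP_90f90f_co (MG project), module S4A (helper90)
-/

set_option autoImplicit false
set_option linter.unusedSectionVars false

noncomputable section

open Classical Module
open scoped Matrix

namespace Pool.Agent.H52.MG

namespace H90

/-- a vector orthogonal to two independent vectors `a, b` is a multiple of `a × b` -/
lemma cross_of_orth {a b x : Vec} (hn : a ⨯₃ b ≠ 0) (h1 : x ⬝ᵥ a = 0) (h2 : x ⬝ᵥ b = 0) :
    ∃ r : ℝ, x = r • (a ⨯₃ b) := by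
  apply cross_zero x (a ⨯₃ b) hn
  rw [dot3] at h1 h2
  apply vec_ext <;> simp only [cross_eq, Matrix.cons_val, Pi.zero_apply]
  · linear_combination (a 0) * h2 - (b 0) * h1
  · linear_combination (a 1) * h2 - (b 1) * h1
  · linear_combination (a 2) * h2 - (b 2) * h1

/-- a vector orthogonal to `a × b` is a combination of `a` and `b` -/
lemma mem_of_orth {a b x : Vec} (hn : a ⨯₃ b ≠ 0) (h : x ⬝ᵥ (a ⨯₃ b) = 0) :
    ∃ r s : ℝ, x = r • a + s • b := by
  have hnn : (a ⨯₃ b) ⬝ᵥ (a ⨯₃ b) ≠ 0 := fun h0 => hn (dotProduct_self_eq_zero.mp h0)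
  refine ⟨((x ⬝ᵥ a) * (b ⬝ᵥ b) - (x ⬝ᵥ b) * (a ⬝ᵥ b)) / ((a ⨯₃ b) ⬝ᵥ (a ⨯₃ b)),
    ((x ⬝ᵥ b) * (a ⬝ᵥ a) - (x ⬝ᵥ a) * (a ⬝ᵥ b)) / ((a ⨯₃ b) ⬝ᵥ (a ⨯₃ b)), ?_⟩
  have key : ∀ i, x i * ((a ⨯₃ b) ⬝ᵥ (a ⨯₃ b)) =
      ((x ⬝ᵥ a) * (b ⬝ᵥ b) - (x ⬝ᵥ b) * (a ⬝ᵥ b)) * a i +
        ((x ⬝ᵥ b) * (a ⬝ᵥ a) - (x ⬝ᵥ a) * (a ⬝ᵥ b)) * b i + (x ⬝ᵥ (a ⨯₃ b)) * (a ⨯₃ b) i := by
    intro i
    fin_cases i <;> simp only [cross_eq, dot3, Matrix.cons_val, Fin.zero_eta, Fin.mk_one,
      Fin.reduceFinMk] <;> ring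
  funext i
  have := key i
  rw [h, zero_mul, add_zero] at this
  rw [Pi.add_apply, Pi.smul_apply, Pi.smul_apply, smul_eq_mul, smul_eq_mul]
  field_simp
  linarith

lemma cross_ne_zero_of_li {a b : Vec} (h : LinearIndependent ℝ ![a, b]) : a ⨯₃ b ≠ 0 := by
  intro h0
  have hb : b ≠ 0 := by
    have := h.ne_zero 1
    simpa using this
  obtain ⟨r, hr⟩ := cross_zero a b hb h0
  rw [LinearIndependent.pair_iff] at h
  have := h 1 (-r) (by rw [hr]; simp)
  exact one_ne_zero this.1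

/-- two different orthogonal matrices which agree exactly on a plane -/
lemma refl_key {W : Submodule ℝ Vec} (hW : finrank ℝ W = 2) {L L' : Matrix (Fin 3) (Fin 3) ℝ}
    (hL : Orth L) (hL' : Orth L') (h : ∀ x, L *ᵥ x = L' *ᵥ x ↔ x ∈ W) {U Z : Vec}
    (hUZ : (L *ᵥ U) ⬝ᵥ (L' *ᵥ Z) = U ⬝ᵥ Z) : U ∈ W ∨ Z ∈ W := by
  -- a basis of W
  obtain ⟨B⟩ : Nonempty (Basis (Fin 2) ℝ W) := ⟨Module.finBasisOfFinrankEq ℝ W hW⟩
  set a : Vec := ((B 0 : W) : Vec) with ha
  set b : Vec := ((B 1 : W) : Vec) with hb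
  have haW : a ∈ W := (B 0).2
  have hbW : b ∈ W := (B 1).2
  have hli : LinearIndependent ℝ ![a, b] := by
    have h1 := B.linearIndependent.map' W.subtype (Submodule.ker_subtype W)
    have h2 : (![a, b] : Fin 2 → Vec) = (⇑W.subtype ∘ ⇑B) := by
      funext i
      fin_cases i <;> rfl
    rw [h2]
    exact h1
  have hn := cross_ne_zero_of_li hli
  -- R Z - Z is orthogonal to W
  set Y : Vec := Lᵀ *ᵥ (L' *ᵥ Z) - Z with hY
  have hdot : ∀ x : Vec, x ⬝ᵥ (Lᵀ *ᵥ (L' *ᵥ Z)) = (L *ᵥ x) ⬝ᵥ (L' *ᵥ Z) := by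
    intro x
    rw [Matrix.dotProduct_mulVec, Matrix.vecMul_transpose]
  have horth : ∀ w ∈ W, w ⬝ᵥ Y = 0 := by
    intro w hw
    rw [hY, dotProduct_sub, hdot, (h w).2 hw, orth_dot hL', sub_self]
  have hYa : Y ⬝ᵥ a = 0 := by rw [dotProduct_comm]; exact horth a haW
  have hYb : Y ⬝ᵥ b = 0 := by rw [dotProduct_comm]; exact horth b hbW
  obtain ⟨r, hr⟩ := cross_of_orth hn hYa hYb
  have hUY : U ⬝ᵥ Y = 0 := by
    rw [hY, dotProduct_sub, hdot, hUZ, sub_self]
  rw [hr, dotProduct_smul, smul_eq_mul] at hUY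
  rcases mul_eq_zero.1 hUY with h0 | h0
  · -- Y = 0
    right
    rw [h0, zero_smul] at hr
    rw [← h]
    have h1 : Lᵀ *ᵥ (L' *ᵥ Z) = Z := by
      rw [hY, sub_eq_zero] at hr
      exact hr
    have hLL : L * Lᵀ = 1 := mul_eq_one_comm.1 hL
    have h2 : L *ᵥ (Lᵀ *ᵥ (L' *ᵥ Z)) = L' *ᵥ Z := by
      rw [Matrix.mulVec_mulVec, hLL, Matrix.one_mulVec]
    rw [h1] at h2
    exact h2
  · left
    obtain ⟨s, t, hst⟩ := mem_of_orth hn h0
    rw [hst]
    exact W.add_mem (W.smul_mem _ haW) (W.smul_mem _ hbW)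

end H90

open H90

/-- S4A: singleton. -/
theorem s4a (hMT : T_MT) (hFB : T_FB) (hTL : T_TL) (hISO : T_ISO) : T_S4A := by
  intro V _ G c p q a u w hp hpq hsing eu ew honly huw h4u h4w hd
  have hau : c u ≠ c a := fun h => G.ne_of_adj eu (hsing u h).symm
  have haw : c w ≠ c a := fun h => G.ne_of_adj ew (hsing w h).symm
  have hne : u ≠ w := fun h => huw (by rw [h])
  have hdg : dgc G c a = 2 := by
    unfold dgc
    trans ({(a, u), (a, w)} : Finset (V × V)).card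
    · congr 1
      ext ⟨x, y⟩
      simp only [Finset.mem_filter, Finset.mem_univ, true_and, Finset.mem_insert,
        Finset.mem_singleton, Prod.mk.injEq]
      constructor
      · rintro ⟨h1, h2, h3⟩
        have := hsing x h1
        subst this
        rcases honly y h3 with rfl | rfl
        · exact Or.inl ⟨rfl, rfl⟩
        · exact Or.inr ⟨rfl, rfl⟩
      · rintro (⟨rfl, rfl⟩ | ⟨rfl, rfl⟩)
        · exact ⟨rfl, hau, eu⟩
        · exact ⟨rfl, haw, ew⟩
    · rw [Finset.card_insert_of_notMem (by simp [hne]), Finset.card_singleton]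
  have hCnd : Cnd (delS G (cls c a)) (mrg c u a) 1 := by
    apply cnd_split hau 6 1
    · intro d hdc h
      exact hd d hdc (fun v hv => hsing v (h v hv))
    · rw [hdg]
      norm_num
  have hMot := hMT V _ _ 1 p hp hCnd
  have hmap : ∀ S ∈ PinMot G c p a, ∃ S' ∈ Mot (delS G (cls c a)) (mrg c u a) p,
      ∀ x, x ≠ a → S' x = S x := by
    intro S hS
    rw [mem_PinMot] at hS
    refine ⟨fun x => if x = a then S u else S x, ?_, fun x hx => by simp [hx]⟩
    rw [mem_Mot]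
    refine ⟨fun x y hxy => ?_, fun x y hxy => ?_⟩
    · unfold mrg at hxy
      have hiff : ∀ z, c z = c a ↔ z = a := fun z => ⟨hsing z, fun h => by rw [h]⟩
      simp only [hiff] at hxy
      by_cases hx : x = a <;> by_cases hy : y = a
      · simp [hx, hy]
      · simp only [hx, hy, if_true, if_false] at hxy ⊢
        exact hS.1 _ _ hxy
      · simp only [hx, hy, if_true, if_false] at hxy ⊢
        exact hS.1 _ _ hxy
      · simp only [hx, hy, if_false] at hxy ⊢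
        exact hS.1 _ _ hxy
    · obtain ⟨h1, h2, h3⟩ := hxy
      have hx : x ≠ a := fun h => h2 (by rw [h]; rfl)
      have hy : y ≠ a := fun h => h3 (by rw [h]; rfl)
      simp only [hx, hy, if_false]
      exact hS.2 x y h1 hx
  have hfin := hFB V G c p a _ hp hmap
  obtain ⟨W, hW⟩ := fin1 hTL hISO (HP G c) a hp hpq (by omega)
  rcases hW (Bd G c u) (Bd G c w) (mem_Bd_of_adj eu) (mem_Bd_of_adj ew) h4u h4w (Cgr_Bd hpq u)
    (Cgr_Bd hpq w) with h | ⟨hW2, hA, L, L', t, t', hL, hL', hLX, hLY, hLL, hiff⟩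
  · exact ⟨u, w, huw, h⟩
  have hqa := hLX a (mem_Bd_of_adj eu)
  have hqa' := hLY a (mem_Bd_of_adj ew)
  have hqu := hLX u (mem_Bd_self G c u)
  have hqw := hLY w (mem_Bd_self G c w)
  have hCa := Cgr_Bd hpq a
  have hua : u ∈ Bd G c a := mem_Bd_of_adj eu.symm
  have hwa : w ∈ Bd G c a := mem_Bd_of_adj ew.symm
  have hkey : (L *ᵥ (p u - p a)) ⬝ᵥ (L' *ᵥ (p w - p a)) = (p u - p a) ⬝ᵥ (p w - p a) := by
    have h1 : L *ᵥ (p u - p a) = q u - q a := by
      rw [hqu, hqa, Matrix.mulVec_sub, add_sub_add_right_eq_sub]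
    have h2 : L' *ᵥ (p w - p a) = q w - q a := by
      rw [hqw, hqa', Matrix.mulVec_sub, add_sub_add_right_eq_sub]
    have h3 := hCa u hua w hwa
    have h4 := hCa u hua a (mem_Bd_self G c a)
    have h5 := hCa w hwa a (mem_Bd_self G c a)
    rw [h1, h2]
    simp only [dsq, dot3, Pi.sub_apply] at h3 h4 h5 ⊢
    linear_combination (1 / 2) * h4 + (1 / 2) * h5 - (1 / 2) * h3
  have hBda : ∀ x ∈ Bd G c a, x = a ∨ x = u ∨ x = w := by
    intro x hx
    rcases hx with hx | ⟨z, hz, hcz⟩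
    · exact Or.inl (hsing x hx)
    · have := hsing z hcz
      subst this
      exact Or.inr (honly x hz.symm)
  rcases refl_key hW2 hL hL' hiff hkey with hU | hZ
  · -- the isometry of `w` also moves `u`
    rw [← hiff] at hU
    have hqu' : q u = L' *ᵥ p u + t' := by
      rw [Matrix.mulVec_sub, Matrix.mulVec_sub] at hU
      have h1 : L *ᵥ p a + t = L' *ᵥ p a + t' := by rw [← hqa, hqa']
      have h2 : L *ᵥ p u = (L' *ᵥ p u - L' *ᵥ p a) + L *ᵥ p a := by
        rw [← hU]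
        abel
      rw [hqu, h2, add_assoc, h1]
      abel
    refine ⟨w, a, haw, cgr_of_isom hL' (t := t') ?_⟩
    rintro x (hx | hx)
    · exact hLY x hx
    · rcases hBda x hx with rfl | rfl | rfl
      · exact hqa'
      · exact hqu'
      · exact hqw
  · rw [← hiff] at hZ
    have hqw' : q w = L *ᵥ p w + t := by
      rw [Matrix.mulVec_sub, Matrix.mulVec_sub] at hZ
      have h1 : L *ᵥ p a + t = L' *ᵥ p a + t' := by rw [← hqa, hqa']
      have h2 : L' *ᵥ p w = (L *ᵥ p w - L *ᵥ p a) + L' *ᵥ p a := by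
        rw [hZ]
        abel
      rw [hqw, h2, add_assoc, ← h1]
      abel
    refine ⟨u, a, hau, cgr_of_isom hL (t := t) ?_⟩
    rintro x (hx | hx)
    · exact hLX x hx
    · rcases hBda x hx with rfl | rfl | rfl
      · exact hqa
      · exact hqu
      · exact hqw'

end Pool.Agent.H52.MG
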