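import Pool.Agent.H52.MG.Basic
import Pool.Agent.H52.MG.Targets

/-!
# MP_90f90f_co (MG project), modules M1, M2, M6, S3, S5, S4A: common lemmas (helper90)
-/

set_option autoImplicit false
set_option linter.unusedSectionVars false

noncomputable section

open Classical Module
open scoped Matrix

namespace Pool.Agent.H52.MG

namespace H90

/-! ### linear algebra -/

lemma orth_dot {L : Matrix (Fin 3) (Fin 3) ℝ} (h : Orth L) (a b : Vec) :
    (L *ᵥ a) ⬝ᵥ (L *ᵥ b) = a ⬝ᵥ b := by
  rw [Matrix.dotProduct_mulVec, Matrix.vecMul_mulVec, h, Matrix.vecMul_one]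

lemma dsq_orth {L : Matrix (Fin 3) (Fin 3) ℝ} (h : Orth L) (a b t : Vec) :
    dsq (L *ᵥ a + t) (L *ᵥ b + t) = dsq a b := by
  unfold dsq
  rw [add_sub_add_right_eq_sub, ← Matrix.mulVec_sub, orth_dot h]

section
variable {V : Type} [Fintype V]

lemma cgr_of_isom {L : Matrix (Fin 3) (Fin 3) ℝ} {t : Vec} (h : Orth L) {X : Set V}
    {p q : V → Vec} (hX : ∀ x ∈ X, q x = L *ᵥ p x + t) : Cgr X p q := by
  intro u hu w hw
  rw [hX u hu, hX w hw, dsq_orth h]

lemma finrank_vec : finrank ℝ Vec = 3 := by simp [Vec]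

/-- two different matrices which agree on a subspace of dimension at least two -/
lemma fix_eq {W : Submodule ℝ Vec} (hW : 2 ≤ finrank ℝ W) {L L' : Matrix (Fin 3) (Fin 3) ℝ}
    (hne : L ≠ L') (h : ∀ w ∈ W, L *ᵥ w = L' *ᵥ w) :
    finrank ℝ W = 2 ∧ ∀ x, L *ᵥ x = L' *ᵥ x → x ∈ W := by
  set F : Submodule ℝ Vec := LinearMap.ker ((L - L').mulVecLin) with hF
  have hmem : ∀ x, x ∈ F ↔ L *ᵥ x = L' *ᵥ x := by
    intro x
    rw [hF, LinearMap.mem_ker, Matrix.mulVecLin_apply, Matrix.sub_mulVec, sub_eq_zero]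
  have hWF : W ≤ F := fun w hw => (hmem w).2 (h w hw)
  have hFt : F ≠ ⊤ := by
    intro htop
    apply hne
    have h1 : ∀ x, L *ᵥ x = L' *ᵥ x := by
      intro x
      rw [← hmem, htop]
      exact Submodule.mem_top
    exact Matrix.mulVec_injective (funext h1)
  have hlt : finrank ℝ F < 3 := by
    have := Submodule.finrank_lt hFt
    rwa [finrank_vec] at this
  have hle := Submodule.finrank_mono hWF
  have heq : W = F := Submodule.eq_of_le_of_finrank_le hWF (by omega)
  refine ⟨by omega, fun x hx => ?_⟩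
  rw [heq, hmem]
  exact hx

lemma det_of_mem {W : Submodule ℝ Vec} (hW : finrank ℝ W = 2) {a b e : Vec} (ha : a ∈ W)
    (hb : b ∈ W) (he : e ∈ W) : a ⬝ᵥ (b ⨯₃ e) = 0 := by
  by_contra hne
  have hdet : (Matrix.of ![a, b, e]).det ≠ 0 := by
    have := triple_product_eq_det a b e
    rwa [this] at hne
  have hli : LinearIndependent ℝ ![a, b, e] := by
    have := Matrix.linearIndependent_rows_iff_isUnit (A := Matrix.of ![a, b, e])
    exact this.2 ((Matrix.isUnit_iff_isUnit_det _).2 (isUnit_iff_ne_zero.2 hdet))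
  have hli' : LinearIndependent ℝ (fun i : Fin 3 => (⟨![a, b, e] i, by
      fin_cases i
      · exact ha
      · exact hb
      · exact he⟩ : W)) := by
    apply LinearIndependent.of_comp W.subtype
    exact hli
  have := hli'.fintype_card_le_finrank
  rw [hW] at this
  simp at this

/-- conclusion of the vertex removal lemma, `k = 0` -/
lemma fin0 (hTL : T_TL) (hISO : T_ISO) (H : SimpleGraph V) {p q : V → Vec} (v : V) (hp : Gen p)
    (hpq : Eqv H p q) (hf : finrank ℝ (infMot (delV H v) p) ≤ 9) {X Y : Set V} (hvX : v ∈ X)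
    (hvY : v ∈ Y) (hX4 : 4 ≤ X.ncard) (hY4 : 4 ≤ Y.ncard) (hX : Cgr X p q) (hY : Cgr Y p q) :
    Cgr (X ∪ Y) p q := by
  obtain ⟨W, hW, hWW⟩ := hTL V H p q v 0 hp hpq (by simpa using hf)
  obtain ⟨L, t, hL, hLX⟩ := hISO V X p q hX
  obtain ⟨L', t', hL', hLY⟩ := hISO V Y p q hY
  have hWt : W = ⊤ := by
    apply Submodule.eq_top_of_finrank_eq
    rw [finrank_vec]
    have := Submodule.finrank_le W
    rw [finrank_vec] at this
    omega
  have hLL : L = L' := by
    apply Matrix.mulVec_injective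
    funext x
    exact hWW X Y hvX hvY hX4 hY4 L t L' t' hL hL' hLX hLY x (by rw [hWt]; exact Submodule.mem_top)
  subst hLL
  have htt : t = t' := by
    have h1 := hLX v hvX
    have h2 := hLY v hvY
    rw [h1] at h2
    exact add_left_cancel h2
  subst htt
  apply cgr_of_isom hL (t := t)
  rintro x (hx | hx)
  · exact hLX x hx
  · exact hLY x hx

/-- conclusion of the vertex removal lemma, `k = 1` -/
lemma fin1 (hTL : T_TL) (hISO : T_ISO) (H : SimpleGraph V) {p q : V → Vec} (v : V) (hp : Gen p)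
    (hpq : Eqv H p q) (hf : finrank ℝ (infMot (delV H v) p) ≤ 10) :
    ∃ W : Submodule ℝ Vec, ∀ X Y : Set V, v ∈ X → v ∈ Y → 4 ≤ X.ncard → 4 ≤ Y.ncard →
      Cgr X p q → Cgr Y p q → Cgr (X ∪ Y) p q ∨
        (finrank ℝ W = 2 ∧ (∀ x, x ∈ X → x ∈ Y → p x - p v ∈ W) ∧
          ∃ (L L' : Matrix (Fin 3) (Fin 3) ℝ) (t t' : Vec), Orth L ∧ Orth L' ∧
            (∀ x ∈ X, q x = L *ᵥ p x + t) ∧ (∀ x ∈ Y, q x = L' *ᵥ p x + t') ∧
            L ≠ L' ∧ (∀ x, L *ᵥ x = L' *ᵥ x ↔ x ∈ W)) := by
  obtain ⟨W, hW, hWW⟩ := hTL V H p q v 1 hp hpq (by simpa using hf)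
  refine ⟨W, fun X Y hvX hvY hX4 hY4 hX hY => ?_⟩
  obtain ⟨L, t, hL, hLX⟩ := hISO V X p q hX
  obtain ⟨L', t', hL', hLY⟩ := hISO V Y p q hY
  have hag := hWW X Y hvX hvY hX4 hY4 L t L' t' hL hL' hLX hLY
  have h1 := hLX v hvX
  have h2 := hLY v hvY
  by_cases hLL : L = L'
  · left
    subst hLL
    have htt : t = t' := by
      rw [h1] at h2
      exact add_left_cancel h2
    subst htt
    apply cgr_of_isom hL (t := t)
    rintro x (hx | hx)
    · exact hLX x hx
    · exact hLY x hx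
  · right
    obtain ⟨h3, h4⟩ := fix_eq (by omega) hLL hag
    refine ⟨h3, fun x hxX hxY => h4 _ ?_, L, L', t, t', hL, hL', hLX, hLY, hLL,
      fun x => ⟨h4 x, hag x⟩⟩
    have h5 := hLX x hxX
    have h6 := hLY x hxY
    rw [Matrix.mulVec_sub, Matrix.mulVec_sub]
    have h7 : L *ᵥ p x + t = L' *ᵥ p x + t' := by rw [← h5, ← h6]
    have h8 : L *ᵥ p v + t = L' *ᵥ p v + t' := by rw [← h1, ← h2]
    have h9 : (L *ᵥ p x + t) - (L *ᵥ p v + t) = (L' *ᵥ p x + t') - (L' *ᵥ p v + t') := by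
      rw [h7, h8]
    rwa [add_sub_add_right_eq_sub, add_sub_add_right_eq_sub] at h9

/-! ### surplus -/

lemma s2_nonneg_of_Tt {G : SimpleGraph V} {c : V → V} (h : Tt G c) (d : V → V)
    (hd : Coarse c d) : 0 ≤ s2 G d := by
  by_cases h2 : 2 ≤ pt d
  · have := h d hd h2
    omega
  · unfold s2
    have : (pt d : ℤ) ≤ 1 := by
      have : pt d ≤ 1 := by omega
      exact_mod_cast this
    have h3 : (0 : ℤ) ≤ (cr2 G d : ℤ) := Int.natCast_nonneg _
    linarith

lemma cr2_delE {L : Type} {G : SimpleGraph V} {a b : V} (h : G.Adj a b) (d : V → L) :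
    cr2 G d = cr2 (delE G a b) d + if d a ≠ d b then 2 else 0 := by
  have hab : a ≠ b := G.ne_of_adj h
  by_cases hd : d a = d b
  · rw [if_neg (by simpa using hd), add_zero]
    unfold cr2
    congr 1
    ext ⟨x, y⟩
    simp only [Finset.mem_filter, Finset.mem_univ, true_and, delE]
    constructor
    · rintro ⟨h1, h2⟩
      refine ⟨⟨h1, ?_, ?_⟩, h2⟩
      · rintro ⟨rfl, rfl⟩
        exact h2 hd
      · rintro ⟨rfl, rfl⟩
        exact h2 hd.symm
    · rintro ⟨⟨h1, _, _⟩, h2⟩
      exact ⟨h1, h2⟩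
  · rw [if_pos hd]
    unfold cr2
    have hset : ((Finset.univ : Finset (V × V)).filter
        (fun x => G.Adj x.1 x.2 ∧ d x.1 ≠ d x.2)) =
        ((Finset.univ : Finset (V × V)).filter
        (fun x => (delE G a b).Adj x.1 x.2 ∧ d x.1 ≠ d x.2)) ∪ {(a, b), (b, a)} := by
      ext ⟨x, y⟩
      simp only [Finset.mem_filter, Finset.mem_univ, true_and, delE, Finset.mem_union,
        Finset.mem_insert, Finset.mem_singleton, Prod.mk.injEq]
      constructor
      · rintro ⟨h1, h2⟩
        by_cases h3 : x = a ∧ y = b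
        · exact Or.inr (Or.inl h3)
        · by_cases h4 : x = b ∧ y = a
          · exact Or.inr (Or.inr h4)
          · exact Or.inl ⟨⟨h1, h3, h4⟩, h2⟩
      · rintro (⟨⟨h1, _, _⟩, h2⟩ | ⟨rfl, rfl⟩ | ⟨rfl, rfl⟩)
        · exact ⟨h1, h2⟩
        · exact ⟨h, hd⟩
        · exact ⟨h.symm, fun e => hd e.symm⟩
    rw [hset, Finset.card_union_of_disjoint]
    · congr 1
      rw [Finset.card_pair]
      intro e
      exact hab (congrArg Prod.fst e)
    · rw [Finset.disjoint_left]
      rintro ⟨x, y⟩ h1 h2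
      simp only [Finset.mem_filter, Finset.mem_univ, true_and, delE, Finset.mem_insert,
        Finset.mem_singleton, Prod.mk.injEq] at h1 h2
      rcases h2 with h2 | h2
      · exact h1.1.2.1 h2
      · exact h1.1.2.2 h2

lemma s2_delE {L : Type} {G : SimpleGraph V} {a b : V} (h : G.Adj a b) (d : V → L) :
    s2 G d = s2 (delE G a b) d + if d a ≠ d b then 10 else 0 := by
  unfold s2
  rw [cr2_delE h d]
  split_ifs <;> push_cast <;> ring

/-- splitting off the class of `v` -/
def spl {L : Type} (c : V → V) (v : V) (d : V → L) : V → Option L :=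
  fun u => if c u = c v then none else some (d u)

lemma cr2_spl {L : Type} (G : SimpleGraph V) (c : V → V) (v : V) (d : V → L) :
    cr2 G (spl c v d) = cr2 (delS G (cls c v)) d + 2 * dgc G c v := by
  unfold cr2 dgc
  set F := (Finset.univ : Finset (V × V)).filter
    (fun x => c x.1 = c v ∧ c x.2 ≠ c v ∧ G.Adj x.1 x.2) with hF
  have hmF : ∀ x, x ∈ F ↔ c x.1 = c v ∧ c x.2 ≠ c v ∧ G.Adj x.1 x.2 := by
    intro x
    rw [hF]
    simp
  set A := (Finset.univ : Finset (V × V)).filter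
    (fun x => (delS G (cls c v)).Adj x.1 x.2 ∧ d x.1 ≠ d x.2) with hA
  have hmA : ∀ x, x ∈ A ↔ (G.Adj x.1 x.2 ∧ c x.1 ≠ c v ∧ c x.2 ≠ c v) ∧ d x.1 ≠ d x.2 := by
    intro x
    rw [hA]
    simp [delS, cls]
  have hmS : ∀ x, x ∈ F.image Prod.swap ↔ c x.2 = c v ∧ c x.1 ≠ c v ∧ G.Adj x.2 x.1 := by
    intro x
    rw [Finset.mem_image]
    constructor
    · rintro ⟨y, hy, rfl⟩
      exact (hmF y).1 hy
    · intro h
      exact ⟨x.swap, (hmF _).2 h, Prod.swap_swap x⟩
  have h1 : (F.image Prod.swap).card = F.card :=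
    Finset.card_image_of_injective _ Prod.swap_injective
  trans (A ∪ (F ∪ F.image Prod.swap)).card
  · congr 1
    ext x
    rw [Finset.mem_union, Finset.mem_union, hmA, hmF, hmS]
    simp only [Finset.mem_filter, Finset.mem_univ, true_and, spl]
    have hsym : G.Adj x.2 x.1 ↔ G.Adj x.1 x.2 := G.adj_comm _ _
    by_cases hx : c x.1 = c v <;> by_cases hy : c x.2 = c v <;> simp [hx, hy, hsym]
  rw [Finset.card_union_of_disjoint, Finset.card_union_of_disjoint, h1]
  · ring
  · rw [Finset.disjoint_left]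
    intro x hx1 hx2
    exact ((hmS x).1 hx2).2.1 ((hmF x).1 hx1).1
  · rw [Finset.disjoint_left]
    intro x hx1 hx2
    rw [hmA] at hx1
    rw [Finset.mem_union, hmF, hmS] at hx2
    rcases hx2 with hx2 | hx2
    · exact hx1.1.2.1 hx2.1
    · exact hx1.1.2.2 hx2.1

lemma pt_spl {L : Type} (c : V → V) (v y : V) (d : V → L) (hy : c y ≠ c v)
    (hd : Coarse (mrg c y v) d) : pt (spl c v d) = pt d + 1 := by
  unfold pt
  have hX : ∀ u, c u = c v → d u = d y := by
    intro u hu
    apply hd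
    unfold mrg
    rw [if_pos hu, if_neg hy]
  trans (insert none ((Finset.univ.image d).image some)).card
  · congr 1
    ext o
    simp only [Finset.mem_image, Finset.mem_univ, true_and, Finset.mem_insert]
    constructor
    · rintro ⟨u, rfl⟩
      unfold spl
      by_cases hu : c u = c v
      · simp [hu]
      · right
        exact ⟨d u, ⟨u, rfl⟩, by simp [hu]⟩
    · rintro (rfl | ⟨l, ⟨u, rfl⟩, rfl⟩)
      · exact ⟨v, by simp [spl]⟩
      · by_cases hu : c u = c v
        · exact ⟨y, by simp [spl, hy, hX u hu]⟩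
        · exact ⟨u, by simp [spl, hu]⟩
  rw [Finset.card_insert_of_notMem, Finset.card_image_of_injective _ (Option.some_injective L)]
  simp

lemma s2_spl {L : Type} (G : SimpleGraph V) (c : V → V) (v y : V) (d : V → L) (hy : c y ≠ c v)
    (hd : Coarse (mrg c y v) d) :
    s2 G (spl c v d) = s2 (delS G (cls c v)) d + 10 * dgc G c v - 12 := by
  unfold s2
  rw [cr2_spl, pt_spl c v y d hy hd]
  push_cast
  ring

lemma coarse_spl {L : Type} (c : V → V) (v y : V) (d : V → L)
    (hd : Coarse (mrg c y v) d) : Coarse c (spl c v d) := by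
  intro u w huw
  unfold spl
  rw [huw]
  by_cases hw : c w = c v
  · simp [hw]
  · simp only [hw, if_false]
    congr 1
    apply hd
    unfold mrg
    rw [huw]

/-- lower bound for the surplus after deleting a class -/
lemma cnd_split {G : SimpleGraph V} {c : V → V} {v y : V} (hy : c y ≠ c v) (N : ℤ) (k : ℕ)
    (h : ∀ d : V → V, Coarse c d → (∀ u, d u = d v → c u = c v) → N ≤ s2 G d)
    (hk : -(2 * (k : ℤ)) + 10 * dgc G c v - 12 ≤ N) :
    Cnd (delS G (cls c v)) (mrg c y v) k := by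
  intro d hd
  obtain ⟨d', hd', -, -, hs⟩ := exists_relabel' G (spl c v d)
  have h1 : N ≤ s2 G d' := by
    apply h d'
    · intro u w huw
      rw [hd']
      exact coarse_spl c v y d hd u w huw
    · intro u hu
      rw [hd'] at hu
      unfold spl at hu
      by_contra hc
      simp [hc] at hu
  rw [hs, s2_spl G c v y d hy hd] at h1
  linarith

lemma four_le_ncard {X : Set V} {a b e f : V} (ha : a ∈ X) (hb : b ∈ X) (he : e ∈ X)
    (hf : f ∈ X) (h1 : a ≠ b) (h2 : a ≠ e) (h3 : a ≠ f) (h4 : b ≠ e) (h5 : b ≠ f)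
    (h6 : e ≠ f) : 4 ≤ X.ncard := by
  have hsub : (({a, b, e, f} : Finset V) : Set V) ⊆ X := by
    intro x hx
    simp only [Finset.coe_insert, Finset.coe_singleton, Set.mem_insert_iff,
      Set.mem_singleton_iff] at hx
    rcases hx with rfl | rfl | rfl | rfl <;> assumption
  have h := Set.ncard_le_ncard hsub (Set.toFinite X)
  rw [Set.ncard_coe_finset] at h
  have : ({a, b, e, f} : Finset V).card = 4 := by
    rw [Finset.card_insert_of_notMem (by simp [h1, h2, h3]),
      Finset.card_insert_of_notMem (by simp [h4, h5]),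
      Finset.card_insert_of_notMem (by simp [h6]), Finset.card_singleton]
  omega

end

end H90

end Pool.Agent.H52.MG
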